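import Pool.Agent.Q83.DN.A

/-! # Steering multiples of a random number by a window of its digits -/

set_option autoImplicit false

open MeasureTheory Filter Topology Finset

namespace Pool.Agent.Q83.DN

variable {b : ℕ}

lemma exists_word (hb : 0 < b) (M : ℕ) : ∀ m : ℕ, m < b ^ M → ∃ v : ℕ → Fin b, ∀ n : ℕ,
    ∑ i ∈ range M, (v i : ℝ) * ((b : ℝ) ^ (n + i + 1))⁻¹ = m * ((b : ℝ) ^ (n + M))⁻¹ := by
  have hb' : (b : ℝ) ≠ 0 := by exact_mod_cast hb.ne'
  induction M with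
  | zero =>
    intro m hm
    obtain rfl : m = 0 := by simpa using hm
    exact ⟨fun _ => ⟨0, hb⟩, fun n => by simp⟩
  | succ M ih =>
    intro m hm
    obtain ⟨v, hv⟩ := ih (m % b ^ M) (Nat.mod_lt _ (pow_pos hb M))
    have h0 : m / b ^ M < b := by
      rw [Nat.div_lt_iff_lt_mul (pow_pos hb M)]
      rw [pow_succ] at hm; rwa [mul_comm]
    refine ⟨fun i => if i = 0 then ⟨m / b ^ M, h0⟩ else v (i - 1), fun n => ?_⟩
    rw [Finset.sum_range_succ']
    have h1 : ∑ k ∈ range M, (((if k + 1 = 0 then (⟨m / b ^ M, h0⟩ : Fin b) else v (k + 1 - 1) :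
        Fin b) : ℕ) : ℝ) * ((b : ℝ) ^ (n + (k + 1) + 1))⁻¹
        = ((m % b ^ M : ℕ) : ℝ) * ((b : ℝ) ^ (n + 1 + M))⁻¹ := by
      rw [← hv (n + 1)]
      refine Finset.sum_congr rfl fun k _ => ?_
      rw [if_neg (Nat.succ_ne_zero k), Nat.add_sub_cancel]
      congr 3
      ring
    rw [h1]
    simp only [if_true]
    have h2 : ((m / b ^ M : ℕ) : ℝ) * ((b : ℝ) ^ (n + 0 + 1))⁻¹
        = ((m / b ^ M : ℕ) : ℝ) * (b : ℝ) ^ M * ((b : ℝ) ^ (n + 1 + M))⁻¹ := by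
      field_simp
      ring
    rw [h2, ← add_mul, show n + (M + 1) = n + 1 + M by ring]
    congr 1
    have h3 : m % b ^ M + (m / b ^ M) * b ^ M = m := by
      have := Nat.mod_add_div m (b ^ M)
      rw [mul_comm (b ^ M)] at this
      exact this
    exact_mod_cast h3

/-- Steering: if `b ^ n ≤ Q ≤ b ^ (n + s)`, a suitable word of length `s + L` in the window starting
at `n` brings `Q` times the number within `b ^ (-L)` of a given target, modulo one, whatever the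
later digits are. -/
lemma steer (hb : 0 < b) (n s L : ℕ) {Q : ℝ} (hQ1 : (b : ℝ) ^ n ≤ Q) (hQ2 : Q ≤ (b : ℝ) ^ (n + s))
    (y : ℝ) : ∃ v : ℕ → Fin b, ∀ d : ℕ → Fin b, (∀ i < s + L, d (n + i) = v i) →
      |Q * (Real.ofDigits d - ∑ i ∈ range n, Real.ofDigitsTerm d i) - Int.fract y|
        ≤ ((b : ℝ) ^ L)⁻¹ := by
  have hb' : (0 : ℝ) < b := by exact_mod_cast hb
  have hQ0 : 0 < Q := lt_of_lt_of_le (by positivity) hQ1
  set t := Int.fract y with ht
  have ht0 : 0 ≤ t := Int.fract_nonneg y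
  have ht1 : t < 1 := Int.fract_lt_one y
  set m : ℕ := ⌊t * (b : ℝ) ^ (n + (s + L)) / Q⌋₊ with hm
  have hmle : (m : ℝ) ≤ t * (b : ℝ) ^ (n + (s + L)) / Q := Nat.floor_le (by positivity)
  have hmlt : t * (b : ℝ) ^ (n + (s + L)) / Q < m + 1 := Nat.lt_floor_add_one _
  have hmb : m < b ^ (s + L) := by
    have h1 : t * (b : ℝ) ^ (n + (s + L)) / Q < (b : ℝ) ^ (s + L) := by
      rw [div_lt_iff₀ hQ0, pow_add]
      calc t * ((b : ℝ) ^ n * (b : ℝ) ^ (s + L)) < 1 * ((b : ℝ) ^ n * (b : ℝ) ^ (s + L)) :=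
            mul_lt_mul_of_pos_right ht1 (by positivity)
        _ = (b : ℝ) ^ (s + L) * (b : ℝ) ^ n := by ring
        _ ≤ (b : ℝ) ^ (s + L) * Q := mul_le_mul_of_nonneg_left hQ1 (by positivity)
    have h2 : (m : ℝ) < ((b ^ (s + L) : ℕ) : ℝ) := by push_cast; linarith
    exact_mod_cast h2
  obtain ⟨v, hv⟩ := exists_word hb (s + L) m hmb
  refine ⟨v, fun d hd => ?_⟩
  have h1 : Real.ofDigits d - ∑ i ∈ range n, Real.ofDigitsTerm d i
      = m * ((b : ℝ) ^ (n + (s + L)))⁻¹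
        + ((b : ℝ) ^ (n + (s + L)))⁻¹ * Real.ofDigits (fun i => d (i + (n + (s + L)))) := by
    rw [Real.ofDigits_eq_sum_add_ofDigits d (n + (s + L)), Finset.sum_range_add, ← hv n]
    have : ∑ x ∈ range (s + L), Real.ofDigitsTerm d (n + x)
        = ∑ i ∈ range (s + L), (v i : ℝ) * ((b : ℝ) ^ (n + i + 1))⁻¹ := by
      refine Finset.sum_congr rfl fun i hi => ?_
      rw [Real.ofDigitsTerm, hd i (Finset.mem_range.1 hi)]
    rw [this]; ring
  rw [h1]
  set τ := Real.ofDigits (fun i => d (i + (n + (s + L)))) with hτ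
  have hτ0 : 0 ≤ τ := Real.ofDigits_nonneg _
  have hτ1 : τ ≤ 1 := Real.ofDigits_le_one _
  set B := (b : ℝ) ^ (n + (s + L)) with hB
  have hB0 : 0 < B := by positivity
  have hQB : Q * B⁻¹ ≤ ((b : ℝ) ^ L)⁻¹ := by
    rw [hB, show n + (s + L) = (n + s) + L by ring, pow_add _ (n + s) L, mul_inv, ← mul_assoc]
    have : Q * ((b : ℝ) ^ (n + s))⁻¹ ≤ 1 := by
      rw [← div_eq_mul_inv, div_le_one (by positivity)]; exact hQ2
    calc Q * ((b : ℝ) ^ (n + s))⁻¹ * ((b : ℝ) ^ L)⁻¹ ≤ 1 * ((b : ℝ) ^ L)⁻¹ :=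
          mul_le_mul_of_nonneg_right this (by positivity)
      _ = _ := one_mul _
  have e1 : (m : ℝ) * (Q * B⁻¹) ≤ t := by
    have := mul_le_mul_of_nonneg_right hmle (show 0 ≤ Q * B⁻¹ by positivity)
    have e : t * B / Q * (Q * B⁻¹) = t := by field_simp
    linarith
  have e2 : t < m * (Q * B⁻¹) + Q * B⁻¹ := by
    have := mul_lt_mul_of_pos_right hmlt (show 0 < Q * B⁻¹ by positivity)
    have e : t * B / Q * (Q * B⁻¹) = t := by field_simp
    nlinarith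
  have e3 : Q * (m * B⁻¹ + B⁻¹ * τ) - t = (m * (Q * B⁻¹) - t) + (Q * B⁻¹) * τ := by ring
  have e4 : 0 ≤ (Q * B⁻¹) * τ := by positivity
  have e5 : (Q * B⁻¹) * τ ≤ Q * B⁻¹ := mul_le_of_le_one_right (by positivity) hτ1
  rw [e3, abs_le]
  constructor <;> linarith

variable {Ω : Type*} [MeasurableSpace Ω] {P : Measure Ω} [IsProbabilityMeasure P]
  {X : ℕ → Ω → Fin b} {p : ℕ → ℝ}

/-- the sum hypothesis: windows of every length have infinite expected number of hits -/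
def Div (p : ℕ → ℝ) : Prop := ∀ M : ℕ, ¬ Summable fun n => ∏ i ∈ range M, p (n + i)

/-- One target, one precision. -/
lemma Unp.target (hb : 2 ≤ b) (h : Unp P X p) (hdiv : Div p) {A : Set ℕ} {r : ℝ} (hr : 0 < r)
    {s : ℕ} (hA : ∀ᶠ n : ℕ in atTop, ∃ q ∈ A, (b : ℝ) ^ n ≤ q * r ∧ q * r ≤ (b : ℝ) ^ (n + s))
    (x γ ε : ℝ) (hε : 0 < ε) :
    ∀ᵐ ω ∂P, ∀ N : ℕ, ∃ q ∈ A, N ≤ q ∧ 0 < q ∧
      |(q * (x + r * Real.ofDigits fun i => X i ω) - γ)
        - round (q * (x + r * Real.ofDigits fun i => X i ω) - γ)| < ε := by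
  classical
  have hb0 : 0 < b := by omega
  have hb1 : (1 : ℝ) < b := by exact_mod_cast (by omega : 1 < b)
  obtain ⟨L, hL⟩ : ∃ L : ℕ, ((b : ℝ) ^ L)⁻¹ < ε := by
    obtain ⟨L, hL⟩ := exists_pow_lt_of_lt_one hε (inv_lt_one_of_one_lt₀ hb1)
    exact ⟨L, by rwa [← inv_pow]⟩
  have hL' : ((b : ℝ) ^ (L + 1))⁻¹ < ε := by
    refine lt_of_le_of_lt ?_ hL
    gcongr
    · exact hb1.le
    · omega
  obtain ⟨n₀, hn₀⟩ := eventually_atTop.1 hA
  -- the choice of q for the window starting at n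
  have hq : ∀ n : ℕ, ∃ q : ℕ, n₀ ≤ n → q ∈ A ∧ (b : ℝ) ^ n ≤ q * r ∧ q * r ≤ (b : ℝ) ^ (n + s) := by
    intro n
    by_cases hn : n₀ ≤ n
    · obtain ⟨q, hq⟩ := hn₀ n hn
      exact ⟨q, fun _ => hq⟩
    · exact ⟨0, fun h => absurd h hn⟩
  choose q hq using hq
  have hv : ∀ (n : ℕ) (y : ℝ), ∃ v : ℕ → Fin b, n₀ ≤ n → ∀ d : ℕ → Fin b,
      (∀ i < s + (L + 1), d (n + i) = v i) →
      |((q n : ℝ) * r) * (Real.ofDigits d - ∑ i ∈ range n, Real.ofDigitsTerm d i) - Int.fract y|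
        ≤ ((b : ℝ) ^ (L + 1))⁻¹ := by
    intro n y
    by_cases hn : n₀ ≤ n
    · obtain ⟨v, hv⟩ := steer hb0 n s (L + 1) (hq n hn).2.1 (hq n hn).2.2 y
      exact ⟨v, fun _ => hv⟩
    · exact ⟨fun _ => ⟨0, hb0⟩, fun h => absurd h hn⟩
  choose v hv using hv
  set Y : ℕ → Ω → ℝ := fun n ω =>
    γ - q n * x - (q n : ℝ) * r * ∑ i ∈ range n, Real.ofDigitsTerm (fun i => X i ω) i with hY
  have hdep : ∀ n i, FDep X n (fun ω => v n (Y n ω) i) := by
    intro n i ω ω' hω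
    have : Y n ω = Y n ω' := by
      simp only [hY]
      congr 2
      refine Finset.sum_congr rfl fun j hj => ?_
      simp only [Real.ofDigitsTerm]
      rw [hω j (Finset.mem_range.1 hj)]
    simp only [this]
  have hfreq := h.frequently (M := s + (L + 1)) (by omega) (hdiv _)
    (fun n i ω => v n (Y n ω) i) hdep
  filter_upwards [hfreq] with ω hω N
  obtain ⟨K, hK⟩ := exists_nat_gt ((N : ℝ) * r + 1)
  obtain ⟨n, hn, hhit⟩ := hω (max n₀ K)
  have hn0 : n₀ ≤ n := le_trans (le_max_left _ _) hn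
  have hnK : K ≤ n := le_trans (le_max_right _ _) hn
  obtain ⟨hqA, hq1, hq2⟩ := hq n hn0
  have hbig : (N : ℝ) * r + 1 < (q n : ℝ) * r := by
    calc (N : ℝ) * r + 1 < K := hK
      _ ≤ n := by exact_mod_cast hnK
      _ ≤ (b : ℝ) ^ n := by
        have : n < b ^ n := Nat.lt_pow_self (by omega)
        exact_mod_cast this.le
      _ ≤ _ := hq1
  have hNq : (N : ℝ) < q n := by
    by_contra hcon
    push Not at hcon
    have := mul_le_mul_of_nonneg_right hcon hr.le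
    linarith
  have hNq' : N < q n := by exact_mod_cast hNq
  refine ⟨q n, hqA, hNq'.le, by omega, ?_⟩
  have hmain := hv n (Y n ω) hn0 (fun i => X i ω) hhit
  have hround := round_le ((q n : ℝ) * (x + r * Real.ofDigits fun i => X i ω) - γ) (-⌊Y n ω⌋)
  refine lt_of_le_of_lt hround (lt_of_le_of_lt (le_of_eq ?_) (lt_of_le_of_lt hmain hL'))
  congr 1
  have := Int.floor_add_fract (Y n ω)
  push_cast
  simp only [hY] at this ⊢
  linarith

/-- All targets and precisions, `r > 0`. -/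
lemma Unp.dense_pos (hb : 2 ≤ b) (h : Unp P X p) (hdiv : Div p) {A : Set ℕ} {r : ℝ} (hr : 0 < r)
    {s : ℕ} (hA : ∀ᶠ n : ℕ in atTop, ∃ q ∈ A, (b : ℝ) ^ n ≤ q * r ∧ q * r ≤ (b : ℝ) ^ (n + s))
    (x : ℝ) :
    ∀ᵐ ω ∂P, ∀ γ ε : ℝ, 0 < ε → ∀ N : ℕ, ∃ q ∈ A, N ≤ q ∧ 0 < q ∧
      |(q * (x + r * Real.ofDigits fun i => X i ω) - γ)
        - round (q * (x + r * Real.ofDigits fun i => X i ω) - γ)| < ε := by
  have h1 : ∀ᵐ ω ∂P, ∀ (g : ℚ) (k : ℕ), ∀ N : ℕ, ∃ q ∈ A, N ≤ q ∧ 0 < q ∧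
      |(q * (x + r * Real.ofDigits fun i => X i ω) - g)
        - round (q * (x + r * Real.ofDigits fun i => X i ω) - g)| < 1 / (k + 1 : ℝ) := by
    rw [ae_all_iff]; intro g
    rw [ae_all_iff]; intro k
    exact h.target hb hdiv hr hA x g _ (by positivity)
  filter_upwards [h1] with ω hω γ ε hε N
  obtain ⟨k, hk⟩ := exists_nat_one_div_lt (half_pos hε)
  obtain ⟨g, hg1, hg2⟩ := exists_rat_btwn (show γ - ε / 2 < γ by linarith)
  obtain ⟨q, hqA, hqN, hq0, hq⟩ := hω g k N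
  refine ⟨q, hqA, hqN, hq0, ?_⟩
  set z := (q : ℝ) * (x + r * Real.ofDigits fun i => X i ω) with hz
  have h2 := round_le (z - γ) (round (z - g))
  have h3 : |z - γ - (round (z - g) : ℤ)| ≤ |z - g - round (z - g)| + |(g : ℝ) - γ| := by
    have : z - γ - (round (z - g) : ℤ) = (z - g - round (z - g)) + (g - γ) := by ring
    rw [this]; exact abs_add_le _ _
  have h4 : |(g : ℝ) - γ| < ε / 2 := by
    rw [abs_lt]; constructor <;> linarith
  linarith

lemma abs_round_neg (z : ℝ) : |(-z) - round (-z)| = |z - round z| := by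
  apply le_antisymm
  · have := round_le (-z) (-round z)
    refine this.trans (le_of_eq ?_)
    rw [← abs_neg]; congr 1; push_cast; ring
  · have := round_le z (-round (-z))
    refine this.trans (le_of_eq ?_)
    rw [← abs_neg]; congr 1; push_cast; ring

/-- Relatively dense on the logarithmic scale. -/
def LogDense (A : Set ℕ) : Prop :=
  ∃ C : ℝ, ∀ᶠ t : ℝ in atTop, ∃ q ∈ A, t ≤ (q : ℝ) ∧ (q : ℝ) ≤ C * t

lemma LogDense.windows {A : Set ℕ} (hA : LogDense A) (hb : 2 ≤ b) {r : ℝ} (hr : 0 < r) :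
    ∃ s : ℕ, ∀ᶠ n : ℕ in atTop, ∃ q ∈ A,
      (b : ℝ) ^ n ≤ q * r ∧ q * r ≤ (b : ℝ) ^ (n + s) := by
  have hb1 : (1 : ℝ) < b := by exact_mod_cast (by omega : 1 < b)
  obtain ⟨C, hC⟩ := hA
  obtain ⟨s, hs⟩ := pow_unbounded_of_one_lt C hb1
  refine ⟨s, ?_⟩
  have ht : Tendsto (fun n : ℕ => (b : ℝ) ^ n / r) atTop atTop :=
    (tendsto_pow_atTop_atTop_of_one_lt hb1).atTop_div_const hr
  filter_upwards [ht.eventually hC] with n hn
  obtain ⟨q, hqA, hq1, hq2⟩ := hn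
  refine ⟨q, hqA, by rwa [div_le_iff₀ hr] at hq1, ?_⟩
  have hpos : 0 < (b : ℝ) ^ n := by positivity
  calc (q : ℝ) * r ≤ C * ((b : ℝ) ^ n / r) * r := mul_le_mul_of_nonneg_right hq2 hr.le
    _ = C * (b : ℝ) ^ n := by field_simp
    _ ≤ (b : ℝ) ^ s * (b : ℝ) ^ n := mul_le_mul_of_nonneg_right hs.le hpos.le
    _ = (b : ℝ) ^ (n + s) := by rw [← pow_add]; congr 1; ring

/-- **Density of `A y` modulo one** for `y = x + r ξ`, `ξ` with unpredictable digits. -/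
theorem dense (hb : 2 ≤ b) (h : Unp P X p) (hdiv : Div p) {A : Set ℕ} (hA : LogDense A)
    (x r : ℝ) (hr : r ≠ 0) :
    ∀ᵐ ω ∂P, ∀ γ ε : ℝ, 0 < ε → ∀ N : ℕ, ∃ q ∈ A, N ≤ q ∧ 0 < q ∧
      |(q * (x + r * Real.ofDigits fun i => X i ω) - γ)
        - round (q * (x + r * Real.ofDigits fun i => X i ω) - γ)| < ε := by
  rcases lt_or_gt_of_ne hr with hneg | hpos
  · obtain ⟨s, hs⟩ := hA.windows (b := b) hb (neg_pos.2 hneg)
    filter_upwards [h.dense_pos hb hdiv (neg_pos.2 hneg) hs (-x)] with ω hω γ ε hε N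
    obtain ⟨q, hqA, hqN, hq0, hq⟩ := hω (-γ) ε hε N
    refine ⟨q, hqA, hqN, hq0, ?_⟩
    rw [← abs_round_neg] at hq
    have e : -((q : ℝ) * (-x + -r * Real.ofDigits fun i => X i ω) - -γ)
        = (q : ℝ) * (x + r * Real.ofDigits fun i => X i ω) - γ := by ring
    rwa [e] at hq
  · obtain ⟨s, hs⟩ := hA.windows (b := b) hb hpos
    exact h.dense_pos hb hdiv hpos hs x

/-- Dirichlet: the multiples of a badly approximable number. -/
lemma logDense_of_bad {α c : ℝ} (hc : 0 < c)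
    (hbad : ∀ q : ℕ, 0 < q → c ≤ (q : ℝ) * |q * α - round (q * α)|) :
    LogDense {q : ℕ | (q : ℝ) * |q * α - round (q * α)| ≤ 1} := by
  refine ⟨c⁻¹, ?_⟩
  have hc' : ∀ᶠ t : ℝ in atTop, 1 ≤ c⁻¹ * t :=
    (Tendsto.const_mul_atTop (inv_pos.2 hc) tendsto_id).eventually_ge_atTop 1
  filter_upwards [hc', eventually_gt_atTop 0] with t ht ht0
  set n := ⌊c⁻¹ * t⌋₊ with hn
  have hn1 : 0 < n := Nat.floor_pos.2 ht
  obtain ⟨q, hq0, hqn, hq⟩ := Real.exists_nat_abs_mul_sub_round_le α hn1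
  have hnle : (n : ℝ) ≤ c⁻¹ * t := Nat.floor_le (by positivity)
  have hnlt : c⁻¹ * t < n + 1 := Nat.lt_floor_add_one _
  have hn0 : (0 : ℝ) < n + 1 := by positivity
  have hqn' : (q : ℝ) ≤ n := by exact_mod_cast hqn
  have hq0' : (0 : ℝ) < q := by exact_mod_cast hq0
  have h1 : (q : ℝ) * |q * α - round (q * α)| ≤ q * (1 / (n + 1)) :=
    mul_le_mul_of_nonneg_left hq hq0'.le
  refine ⟨q, ?_, ?_, hqn'.trans hnle⟩
  · refine h1.trans ?_
    rw [mul_one_div, div_le_one hn0]; linarith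
  · have h2 := (hbad q hq0).trans h1
    rw [mul_one_div, le_div_iff₀ hn0] at h2
    have h3 : c * (c⁻¹ * t) ≤ c * (n + 1) := mul_le_mul_of_nonneg_left hnlt.le hc.le
    rw [← mul_assoc, mul_inv_cancel₀ hc.ne', one_mul] at h3
    linarith

/-- **Littlewood's conjecture for noisy numbers.** -/
theorem littlewood (hb : 2 ≤ b) (h : Unp P X p) (hdiv : Div p) (α x r : ℝ) (hr : r ≠ 0) :
    ∀ᵐ ω ∂P, ∀ γ ε : ℝ, 0 < ε → ∀ N : ℕ, ∃ q : ℕ, N ≤ q ∧ 0 < q ∧
      (q : ℝ) * |q * α - round (q * α)| *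
      |(q * (x + r * Real.ofDigits fun i => X i ω) - γ)
        - round (q * (x + r * Real.ofDigits fun i => X i ω) - γ)| < ε := by
  by_cases hgood : ∀ ε : ℝ, 0 < ε → ∀ N : ℕ, ∃ q : ℕ, N ≤ q ∧ 0 < q ∧
      (q : ℝ) * |q * α - round (q * α)| < ε
  · refine Eventually.of_forall fun ω γ ε hε N => ?_
    obtain ⟨q, hqN, hq0, hq⟩ := hgood ε hε N
    refine ⟨q, hqN, hq0, lt_of_le_of_lt ?_ hq⟩
    refine mul_le_of_le_one_right (by positivity) ?_
    exact (abs_sub_round _).trans (by norm_num)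
  · push Not at hgood
    obtain ⟨c, hc, N₀, hN₀⟩ := hgood
    set K : ℕ := N₀ + 1 with hK
    have hbad : ∀ q : ℕ, 0 < q → c / (K : ℝ) ^ 2 ≤ (q : ℝ) * |q * α - round (q * α)| := by
      intro q hq
      have hK0 : (0 : ℝ) < K := by rw [hK]; positivity
      have h1 := hN₀ (K * q) (by
        calc N₀ ≤ K * 1 := by omega
          _ ≤ K * q := Nat.mul_le_mul_left _ hq) (by positivity)
      have h2 := round_le (((K * q : ℕ) : ℝ) * α) (K * round ((q : ℝ) * α))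
      have h3 : |((K * q : ℕ) : ℝ) * α - ((K * round ((q : ℝ) * α) : ℤ) : ℝ)|
          = K * |q * α - round (q * α)| := by
        have h4 : ((K * q : ℕ) : ℝ) * α - ((K * round ((q : ℝ) * α) : ℤ) : ℝ)
            = (K : ℝ) * (q * α - round (q * α)) := by push_cast; ring
        rw [h4, abs_mul, abs_of_pos hK0]
      rw [h3] at h2
      rw [div_le_iff₀ (by positivity)]
      calc c ≤ ((K * q : ℕ) : ℝ) * |((K * q : ℕ) : ℝ) * α - round (((K * q : ℕ) : ℝ) * α)| := h1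
        _ ≤ ((K * q : ℕ) : ℝ) * (K * |q * α - round (q * α)|) :=
            mul_le_mul_of_nonneg_left h2 (by positivity)
        _ = _ := by push_cast; ring
    filter_upwards [dense hb h hdiv (logDense_of_bad (by positivity) hbad) x r hr] with ω hω γ ε hε N
    obtain ⟨q, hqA, hqN, hq0, hq⟩ := hω γ ε hε N
    refine ⟨q, hqN, hq0, lt_of_le_of_lt ?_ hq⟩
    exact mul_le_of_le_one_left (abs_nonneg _) hqA

end Pool.Agent.Q83.DN
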