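import Mathlib

/-! # Unpredictable random digits

`X 0, X 1, ...` are random digits in base `b`; `Dep X n S` says that the event `S` depends on the
first `n` digits only.  Under the hypothesis that every digit has, given the earlier digits,
conditional probability at least `p n` at place `n`, an event of the form the digits in the window
`[n, n + M)` have the values prescribed by the digits before `n` has conditional probability at
least the product of the `p`, and infinitely many of them happen if the products have infinite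
sum. -/

set_option autoImplicit false

open MeasureTheory Filter Topology Finset

namespace Pool.Agent.Q83.DN

variable {Ω : Type*} {b : ℕ}

/-- `S` depends on the first `n` digits only. -/
def Dep (X : ℕ → Ω → Fin b) (n : ℕ) (S : Set Ω) : Prop :=
  ∀ ω ω' : Ω, (∀ i < n, X i ω = X i ω') → (ω ∈ S ↔ ω' ∈ S)

lemma Dep.mono {X : ℕ → Ω → Fin b} {n m : ℕ} {S : Set Ω} (h : Dep X n S) (hnm : n ≤ m) :
    Dep X m S := fun ω ω' hω => h ω ω' fun i hi => hω i (lt_of_lt_of_le hi hnm)

lemma Dep.inter {X : ℕ → Ω → Fin b} {n : ℕ} {S T : Set Ω} (h : Dep X n S) (h' : Dep X n T) :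
    Dep X n (S ∩ T) := fun ω ω' hω => and_congr (h ω ω' hω) (h' ω ω' hω)

lemma Dep.compl {X : ℕ → Ω → Fin b} {n : ℕ} {S : Set Ω} (h : Dep X n S) :
    Dep X n Sᶜ := fun ω ω' hω => not_congr (h ω ω' hω)

/-- the function `v` depends on the first `n` digits only -/
def FDep {E : Type*} (X : ℕ → Ω → Fin b) (n : ℕ) (v : Ω → E) : Prop :=
  ∀ ω ω' : Ω, (∀ i < n, X i ω = X i ω') → v ω = v ω'

lemma Dep.hit {X : ℕ → Ω → Fin b} {n k : ℕ} {v : Ω → Fin b} (hv : FDep X n v) (hnk : n ≤ k) :
    Dep X (k + 1) {ω | X k ω = v ω} := by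
  intro ω ω' hω
  simp only [Set.mem_ofPred_eq]
  rw [hω k (Nat.lt_succ_self k), hv ω ω' fun i hi => hω i (by omega)]

variable [MeasurableSpace Ω]

lemma Dep.measurableSet {X : ℕ → Ω → Fin b} (hX : ∀ i, Measurable (X i)) {n : ℕ} {S : Set Ω}
    (h : Dep X n S) : MeasurableSet S := by
  set Φ : Ω → (Fin n → Fin b) := fun ω i => X i ω with hΦ
  have hm : Measurable Φ := measurable_pi_lambda _ fun i => hX i
  have : S = Φ ⁻¹' (Φ '' S) := by
    apply Set.Subset.antisymm (Set.subset_preimage_image _ _)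
    rintro ω ⟨ω', hω', he⟩
    refine (h ω' ω fun i hi => ?_).1 hω'
    exact congrFun he ⟨i, hi⟩
  rw [this]
  exact hm (Set.toFinite _).measurableSet

/-- The digits are unpredictable with bound `p`. -/
structure Unp (P : Measure Ω) (X : ℕ → Ω → Fin b) (p : ℕ → ℝ) : Prop where
  meas : ∀ i, Measurable (X i)
  nonneg : ∀ i, 0 ≤ p i
  cond : ∀ (n : ℕ) (w : ℕ → Fin b),
    p n * P.real {ω | ∀ i < n, X i ω = w i} ≤ P.real {ω | ∀ i ≤ n, X i ω = w i}

variable {P : Measure Ω} [IsProbabilityMeasure P] {X : ℕ → Ω → Fin b} {p : ℕ → ℝ}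

/-- One digit. -/
lemma Unp.one (h : Unp P X p) {n : ℕ} {S : Set Ω} (hS : Dep X n S) {v : Ω → Fin b}
    (hv : FDep X n v) : p n * P.real S ≤ P.real (S ∩ {ω | X n ω = v ω}) := by
  classical
  set Φ : Ω → (Fin n → Fin b) := fun ω i => X i ω with hΦ
  have hm : Measurable Φ := measurable_pi_lambda _ fun i => h.meas i
  have hsplit : ∀ T : Set Ω, MeasurableSet T →
      P.real T = ∑ w : Fin n → Fin b, P.real (T ∩ Φ ⁻¹' {w}) := by
    intro T hT
    have h1 := sum_measureReal_preimage_singleton (μ := P.restrict T)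
      (Finset.univ : Finset (Fin n → Fin b)) (f := Φ)
      (fun y _ => hm (measurableSet_singleton y))
    simp only [coe_univ, Set.preimage_univ] at h1
    rw [measureReal_restrict_apply MeasurableSet.univ, Set.univ_inter] at h1
    rw [← h1]
    refine Finset.sum_congr rfl fun w _ => ?_
    rw [measureReal_restrict_apply (hm (measurableSet_singleton w)), Set.inter_comm]
  have hS' : MeasurableSet S := hS.measurableSet h.meas
  have hT' : MeasurableSet (S ∩ {ω | X n ω = v ω}) :=
    ((hS.mono (Nat.le_succ n)).inter (Dep.hit hv le_rfl)).measurableSet h.meas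
  rw [hsplit S hS', hsplit _ hT', Finset.mul_sum]
  refine Finset.sum_le_sum fun w _ => ?_
  by_cases hne : (S ∩ Φ ⁻¹' {w}).Nonempty
  · obtain ⟨ω₀, hω₀S, hω₀⟩ := hne
    have hω₀' : ∀ i : Fin n, X i ω₀ = w i := fun i => congrFun hω₀ i
    -- the word
    let w' : ℕ → Fin b := fun i => if hi : i < n then w ⟨i, hi⟩ else v ω₀
    have hw' : ∀ i (hi : i < n), w' i = w ⟨i, hi⟩ := fun i hi => by simp [w', hi]
    have hw'n : w' n = v ω₀ := by simp [w']
    have e1 : S ∩ Φ ⁻¹' {w} = {ω | ∀ i < n, X i ω = w' i} := by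
      ext ω
      constructor
      · rintro ⟨_, hω⟩ i hi
        rw [hw' i hi]
        exact congrFun hω ⟨i, hi⟩
      · intro hω
        refine ⟨(hS ω₀ ω fun i hi => ?_).1 hω₀S, ?_⟩
        · rw [hω i hi, hw' i hi]; exact hω₀' ⟨i, hi⟩
        · rw [Set.mem_preimage, Set.mem_singleton_iff]
          funext i
          have := hω i i.2
          rw [hw' i i.2] at this
          exact this
    have e2 : S ∩ {ω | X n ω = v ω} ∩ Φ ⁻¹' {w} = {ω | ∀ i ≤ n, X i ω = w' i} := by
      ext ω
      constructor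
      · rintro ⟨⟨hωS, hωn⟩, hω⟩ i hi
        have hω' : ω ∈ {ω | ∀ i < n, X i ω = w' i} := by rw [← e1]; exact ⟨hωS, hω⟩
        rcases Nat.lt_or_ge i n with hin | hin
        · exact hω' i hin
        · obtain rfl : i = n := le_antisymm hi hin
          rw [hw'n]
          have : v ω = v ω₀ := hv ω ω₀ fun i hi => by
            rw [hω' i hi, hw' i hi]; exact (hω₀' ⟨i, hi⟩).symm
          rw [← this]; exact hωn
      · intro hω
        have hω' : ω ∈ S ∩ Φ ⁻¹' {w} := by
          rw [e1]; exact fun i hi => hω i hi.le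
        refine ⟨⟨hω'.1, ?_⟩, hω'.2⟩
        have : v ω = v ω₀ := hv ω ω₀ fun i hi => by
            rw [hω i hi.le, hw' i hi]; exact (hω₀' ⟨i, hi⟩).symm
        rw [Set.mem_ofPred_eq, this, ← hw'n]
        exact hω n le_rfl
    rw [e1, e2]
    exact h.cond n w'
  · rw [Set.not_nonempty_iff_eq_empty] at hne
    rw [hne]
    simp

/-- A window of digits: the event that the digits at the places `n + i`, `i < M`, are `v i`. -/
def Hit (X : ℕ → Ω → Fin b) (n M : ℕ) (v : ℕ → Ω → Fin b) : Set Ω :=
  {ω | ∀ i < M, X (n + i) ω = v i ω}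

omit [MeasurableSpace Ω] in
lemma Hit.dep {X : ℕ → Ω → Fin b} {n : ℕ} {v : ℕ → Ω → Fin b} (hv : ∀ i, FDep X n (v i)) (M : ℕ) :
    Dep X (n + M) (Hit X n M v) := by
  intro ω ω' hω
  simp only [Hit, Set.mem_ofPred_eq]
  refine forall_congr' fun i => forall_congr' fun hi => ?_
  rw [hω (n + i) (by omega), hv i ω ω' fun j hj => hω j (by omega)]

lemma Unp.window (h : Unp P X p) {n : ℕ} {S : Set Ω} (hS : Dep X n S) {v : ℕ → Ω → Fin b}
    (hv : ∀ i, FDep X n (v i)) (M : ℕ) :
    (∏ i ∈ range M, p (n + i)) * P.real S ≤ P.real (S ∩ Hit X n M v) := by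
  induction M with
  | zero => simp [Hit]
  | succ M ih =>
    have h1 : S ∩ Hit X n (M + 1) v = (S ∩ Hit X n M v) ∩ {ω | X (n + M) ω = v M ω} := by
      ext ω
      simp only [Hit, Set.mem_inter_iff, Set.mem_ofPred_eq]
      constructor
      · rintro ⟨a, c⟩
        exact ⟨⟨a, fun i hi => c i (by omega)⟩, c M (by omega)⟩
      · rintro ⟨⟨a, c⟩, d⟩
        refine ⟨a, fun i hi => ?_⟩
        rcases Nat.lt_or_ge i M with hiM | hiM
        · exact c i hiM
        · obtain rfl : i = M := by omega
          exact d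
    rw [h1, Finset.prod_range_succ]
    have hdep : Dep X (n + M) (S ∩ Hit X n M v) :=
      (hS.mono (by omega)).inter (Hit.dep hv M)
    have h2 := h.one (n := n + M) hdep (v := v M)
      (fun ω ω' hω => hv M ω ω' fun i hi => hω i (by omega))
    calc (∏ i ∈ range M, p (n + i)) * p (n + M) * P.real S
        = p (n + M) * ((∏ i ∈ range M, p (n + i)) * P.real S) := by ring
      _ ≤ p (n + M) * P.real (S ∩ Hit X n M v) := mul_le_mul_of_nonneg_left ih (h.nonneg _)
      _ ≤ _ := h2

/-- Disjoint windows `[m k, m k + M)`; if the products of the `p` have infinite sum then almost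
surely some window is hit. -/
lemma Unp.some_window (h : Unp P X p) (M : ℕ) (m : ℕ → ℕ) (hm : ∀ k, m k + M ≤ m (k + 1))
    (v : ℕ → ℕ → Ω → Fin b) (hv : ∀ k i, FDep X (m k) (v k i))
    (hdiv : ¬ Summable fun k => ∏ i ∈ range M, p (m k + i)) :
    P (⋂ k, (Hit X (m k) M (v k))ᶜ) = 0 := by
  set ε : ℕ → ℝ := fun k => ∏ i ∈ range M, p (m k + i) with hε
  have hε0 : ∀ k, 0 ≤ ε k := fun k => Finset.prod_nonneg fun i _ => h.nonneg _
  set F : ℕ → Set Ω := fun K => {ω | ∀ k < K, ω ∉ Hit X (m k) M (v k)} with hF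
  have hFdep : ∀ K, Dep X (m K) (F K) := by
    intro K
    induction K with
    | zero => intro ω ω' _; simp [hF]
    | succ K ih =>
      have : F (K + 1) = F K ∩ (Hit X (m K) M (v K))ᶜ := by
        ext ω
        simp only [hF, Set.mem_ofPred_eq, Set.mem_inter_iff, Set.mem_compl_iff]
        constructor
        · intro a; exact ⟨fun k hk => a k (by omega), a K (by omega)⟩
        · rintro ⟨a, c⟩ k hk
          rcases Nat.lt_or_ge k K with hkK | hkK
          · exact a k hkK
          · obtain rfl : k = K := by omega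
            exact c
      rw [this]
      exact ((ih.mono (by have := hm K; omega)).inter (((Hit.dep (hv K) M).compl).mono (hm K)))
  have hstep : ∀ K, P.real (F (K + 1)) ≤ (1 - ε K) * P.real (F K) := by
    intro K
    have hu : F (K + 1) = F K \ (F K ∩ Hit X (m K) M (v K)) := by
      ext ω
      simp only [hF, Set.mem_ofPred_eq, Set.mem_sdiff, Set.mem_inter_iff]
      constructor
      · intro a
        exact ⟨fun k hk => a k (by omega), fun c => a K (by omega) c.2⟩
      · rintro ⟨a, c⟩ k hk
        rcases Nat.lt_or_ge k K with hkK | hkK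
        · exact a k hkK
        · obtain rfl : k = K := by omega
          exact fun d => c ⟨a, d⟩
    have hmeas : MeasurableSet (F K ∩ Hit X (m K) M (v K)) :=
      (((hFdep K).mono (by omega : m K ≤ m K + M)).inter (Hit.dep (hv K) M)).measurableSet h.meas
    rw [hu, measureReal_sdiff Set.inter_subset_left hmeas]
    have h1 := h.window (hFdep K) (hv K) M
    linarith [h1, show (∏ i ∈ range M, p (m K + i)) = ε K from rfl]
  have hexp : ∀ K, P.real (F K) ≤ Real.exp (-∑ k ∈ range K, ε k) := by
    intro K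
    induction K with
    | zero => simp
    | succ K ih =>
      have h1 : (1 - ε K) ≤ Real.exp (-ε K) := by
        have := Real.add_one_le_exp (-ε K); linarith
      calc P.real (F (K + 1)) ≤ (1 - ε K) * P.real (F K) := hstep K
        _ ≤ Real.exp (-ε K) * P.real (F K) := mul_le_mul_of_nonneg_right h1 measureReal_nonneg
        _ ≤ Real.exp (-ε K) * Real.exp (-∑ k ∈ range K, ε k) :=
            mul_le_mul_of_nonneg_left ih (Real.exp_pos _).le
        _ = Real.exp (-∑ k ∈ range (K + 1), ε k) := by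
            rw [← Real.exp_add, Finset.sum_range_succ]; congr 1; ring
  have hlim : Tendsto (fun K => Real.exp (-∑ k ∈ range K, ε k)) atTop (𝓝 0) := by
    have h1 : Tendsto (fun K => ∑ k ∈ range K, ε k) atTop atTop :=
      (not_summable_iff_tendsto_nat_atTop_of_nonneg hε0).1 hdiv
    exact Real.tendsto_exp_neg_atTop_nhds_zero.comp h1
  have hle : ∀ K, P.real (⋂ k, (Hit X (m k) M (v k))ᶜ) ≤ Real.exp (-∑ k ∈ range K, ε k) := by
    intro K
    refine le_trans (measureReal_mono ?_) (hexp K)
    intro ω hω k _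
    exact Set.mem_iInter.1 hω k
  have h0 : P.real (⋂ k, (Hit X (m k) M (v k))ᶜ) ≤ 0 := ge_of_tendsto' hlim hle
  have h1 : P.real (⋂ k, (Hit X (m k) M (v k))ᶜ) = 0 := le_antisymm h0 measureReal_nonneg
  rwa [measureReal_eq_zero_iff] at h1

/-- A residue class with infinite sum. -/
lemma exists_residue {f : ℕ → ℝ} (hf : ∀ n, 0 ≤ f n) (hdiv : ¬ Summable f) {M : ℕ} (hM : 0 < M) :
    ∃ r < M, ¬ Summable fun k => f (r + k * M) := by
  by_contra hcon
  push Not at hcon
  apply hdiv
  have : NeZero M := ⟨hM.ne'⟩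
  rw [← (Nat.divModEquiv M).symm.summable_iff]
  rw [summable_prod_of_nonneg (f := f ∘ (Nat.divModEquiv M).symm) (fun x => hf _)]
  refine ⟨fun x => (hasSum_fintype _).summable, ?_⟩
  have : (fun x : ℕ => ∑' y : Fin M, (f ∘ (Nat.divModEquiv M).symm) (x, y))
      = fun x => ∑ y : Fin M, f ((y : ℕ) + x * M) := by
    funext x
    rw [tsum_fintype]
    refine Finset.sum_congr rfl fun y _ => ?_
    simp only [Function.comp, Nat.divModEquiv_symm_apply]
    congr 1; ring
  rw [this]
  exact summable_sum fun y _ => hcon y y.2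

/-- Almost surely infinitely many of the windows of length `M` (targets depending on the digits
before the window) are hit. -/
lemma Unp.frequently (h : Unp P X p) {M : ℕ} (hM : 0 < M)
    (hdiv : ¬ Summable fun n => ∏ i ∈ range M, p (n + i))
    (v : ℕ → ℕ → Ω → Fin b) (hv : ∀ n i, FDep X n (v n i)) :
    ∀ᵐ ω ∂P, ∀ N : ℕ, ∃ n ≥ N, ∀ i < M, X (n + i) ω = v n i ω := by
  obtain ⟨r, _, hr⟩ := exists_residue (f := fun n => ∏ i ∈ range M, p (n + i))
    (fun n => Finset.prod_nonneg fun i _ => h.nonneg _) hdiv hM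
  rw [ae_all_iff]
  intro N
  have hr' : ¬ Summable fun k => ∏ i ∈ range M, p ((r + (k + N) * M) + i) := by
    rwa [summable_nat_add_iff (f := fun k => ∏ i ∈ range M, p ((r + k * M) + i)) N]
  have h0 := h.some_window M (fun k => r + (k + N) * M) (fun k => by ring_nf; omega)
    (fun k => v (r + (k + N) * M)) (fun k i => hv _ i) hr'
  rw [ae_iff]
  refine measure_mono_null ?_ h0
  intro ω hω
  simp only [Set.mem_ofPred_eq, not_exists, not_and] at hω
  refine Set.mem_iInter.2 fun k => ?_
  intro hhit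
  refine hω (r + (k + N) * M) ?_ hhit
  calc N ≤ (k + N) * 1 := by omega
    _ ≤ (k + N) * M := Nat.mul_le_mul_left _ hM
    _ ≤ r + (k + N) * M := Nat.le_add_left _ _

end Pool.Agent.Q83.DN
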