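import Pool.Agent.Q83.DN.B

/-! # Sets which are porous at all scales are null sets for unpredictable digits -/

set_option autoImplicit false

open MeasureTheory Filter Topology Finset

namespace Pool.Agent.Q83.DN

/-- Uniformly porous at all small scales: every interval of length `l ≤ l₀` contains an interval of
length `c l` which does not meet `E`. -/
def Porous (E : Set ℝ) : Prop :=
  ∃ c l₀ : ℝ, 0 < c ∧ 0 < l₀ ∧ ∀ a l : ℝ, 0 < l → l ≤ l₀ →
    ∃ a' : ℝ, a ≤ a' ∧ a' + c * l ≤ a + l ∧ ∀ t ∈ Set.Icc a' (a' + c * l), t ∉ E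

lemma Porous.mono {E E' : Set ℝ} (h : Porous E) (hE : E' ⊆ E) : Porous E' := by
  obtain ⟨c, l₀, hc, hl₀, H⟩ := h
  refine ⟨c, l₀, hc, hl₀, fun a l hl hll => ?_⟩
  obtain ⟨a', h1, h2, h3⟩ := H a l hl hll
  exact ⟨a', h1, h2, fun t ht hE' => h3 t ht (hE hE')⟩

/-- affine preimages of porous sets are porous -/
lemma Porous.affine {E : Set ℝ} (h : Porous E) (x r : ℝ) (hr : r ≠ 0) :
    Porous {s | x + r * s ∈ E} := by
  obtain ⟨c, l₀, hc, hl₀, H⟩ := h
  have hr' : 0 < |r| := abs_pos.2 hr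
  refine ⟨c, l₀ / |r|, hc, by positivity, fun a l hl hll => ?_⟩
  have hl' : 0 < |r| * l := by positivity
  have hll' : |r| * l ≤ l₀ := by
    rw [le_div_iff₀ hr'] at hll; linarith
  rcases lt_or_gt_of_ne hr with hneg | hpos
  · obtain ⟨a', h1, h2, h3⟩ := H (x + r * (a + l)) (|r| * l) hl' hll'
    rw [abs_of_neg hneg] at h2 h3
    refine ⟨(a' + c * (-r * l) - x) / r, ?_, ?_, ?_⟩
    · rw [le_div_iff_of_neg hneg]; linarith
    · have e : (a' + c * (-r * l) - x) / r + c * l = (a' - x) / r := by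
        field_simp; ring
      rw [e, div_le_iff_of_neg hneg]; linarith
    · rintro t ⟨ht1, ht2⟩ htE
      refine h3 (x + r * t) ⟨?_, ?_⟩ htE
      · have e : (a' + c * (-r * l) - x) / r + c * l = (a' - x) / r := by
          field_simp; ring
        rw [e, le_div_iff_of_neg hneg] at ht2; linarith
      · rw [div_le_iff_of_neg hneg] at ht1; linarith
  · obtain ⟨a', h1, h2, h3⟩ := H (x + r * a) (|r| * l) hl' hll'
    rw [abs_of_pos hpos] at h2 h3
    refine ⟨(a' - x) / r, ?_, ?_, ?_⟩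
    · rw [le_div_iff₀ hpos]; linarith
    · have e : (a' - x) / r + c * l = (a' + c * (r * l) - x) / r := by
        field_simp; ring
      rw [e, div_le_iff₀ hpos]; linarith
    · rintro t ⟨ht1, ht2⟩ htE
      refine h3 (x + r * t) ⟨?_, ?_⟩ htE
      · rw [div_le_iff₀ hpos] at ht1; linarith
      · have e : (a' - x) / r + c * l = (a' + c * (r * l) - x) / r := by
          field_simp; ring
        rw [e, le_div_iff₀ hpos] at ht2; linarith

variable {b : ℕ}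

/-- a word steering into a given interval -/
lemma word_into (hb : 2 ≤ b) (n M : ℕ) {A a' c : ℝ} (hc : 2 * ((b : ℝ) ^ M)⁻¹ ≤ c)
    (h1 : A ≤ a') (h2 : a' + c * ((b : ℝ) ^ n)⁻¹ ≤ A + ((b : ℝ) ^ n)⁻¹) :
    ∃ v : ℕ → Fin b, ∀ d : ℕ → Fin b, (∑ i ∈ range n, Real.ofDigitsTerm d i = A) →
      (∀ i < M, d (n + i) = v i) →
      Real.ofDigits d ∈ Set.Icc a' (a' + c * ((b : ℝ) ^ n)⁻¹) := by
  have hb0 : (0 : ℝ) < b := by exact_mod_cast (by omega : 0 < b)
  set B : ℝ := (b : ℝ) ^ (n + M) with hB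
  have hB0 : 0 < B := by positivity
  have hBinv : B⁻¹ = ((b : ℝ) ^ M)⁻¹ * ((b : ℝ) ^ n)⁻¹ := by
    rw [hB, pow_add, mul_inv, mul_comm]
  have hn0 : 0 < ((b : ℝ) ^ n)⁻¹ := by positivity
  have hcB : 2 * B⁻¹ ≤ c * ((b : ℝ) ^ n)⁻¹ := by
    rw [hBinv, ← mul_assoc]
    exact mul_le_mul_of_nonneg_right hc hn0.le
  set m : ℕ := ⌈(a' - A) * B⌉₊ with hm
  have hm1 : (a' - A) * B ≤ m := Nat.le_ceil _
  have hm2 : (m : ℝ) < (a' - A) * B + 1 :=
    Nat.ceil_lt_add_one (mul_nonneg (by linarith) hB0.le)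
  have hm1' : a' - A ≤ m * B⁻¹ := by
    rw [← div_eq_mul_inv, le_div_iff₀ hB0]; exact hm1
  have hm2' : (m : ℝ) * B⁻¹ < (a' - A) + B⁻¹ := by
    rw [← div_eq_mul_inv, div_lt_iff₀ hB0, add_mul, inv_mul_cancel₀ hB0.ne']; exact hm2
  have hmM : m < b ^ M := by
    have h3 : (m : ℝ) * B⁻¹ + B⁻¹ < ((b : ℝ) ^ n)⁻¹ := by linarith
    have h4 : ((m : ℝ) + 1) < (b : ℝ) ^ M := by
      have h5 := mul_lt_mul_of_pos_right h3 hB0
      have e1 : ((m : ℝ) * B⁻¹ + B⁻¹) * B = m + 1 := by field_simp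
      have e2 : ((b : ℝ) ^ n)⁻¹ * B = (b : ℝ) ^ M := by
        rw [hB, pow_add]; field_simp
      rw [e1, e2] at h5; exact h5
    have h5 : (m : ℝ) < ((b ^ M : ℕ) : ℝ) := by push_cast; linarith
    exact_mod_cast h5
  obtain ⟨v, hv⟩ := exists_word (by omega : 0 < b) M m hmM
  refine ⟨v, fun d hA hd => ?_⟩
  have h6 : Real.ofDigits d = A + m * B⁻¹ + B⁻¹ * Real.ofDigits (fun i => d (i + (n + M))) := by
    rw [Real.ofDigits_eq_sum_add_ofDigits d (n + M), Finset.sum_range_add, hA, hB, ← hv n]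
    congr 2
    refine Finset.sum_congr rfl fun i hi => ?_
    rw [Real.ofDigitsTerm, hd i (Finset.mem_range.1 hi)]
  have h7 : 0 ≤ Real.ofDigits (fun i => d (i + (n + M))) := Real.ofDigits_nonneg _
  have h8 : Real.ofDigits (fun i => d (i + (n + M))) ≤ 1 := Real.ofDigits_le_one _
  have h9 : 0 < B⁻¹ := by positivity
  have h10 : B⁻¹ * Real.ofDigits (fun i => d (i + (n + M))) ≤ B⁻¹ := mul_le_of_le_one_right h9.le h8
  have h11 : 0 ≤ B⁻¹ * Real.ofDigits (fun i => d (i + (n + M))) := mul_nonneg h9.le h7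
  rw [h6]
  constructor <;> linarith

variable {Ω : Type*} [MeasurableSpace Ω] {P : Measure Ω} [IsProbabilityMeasure P]
  {X : ℕ → Ω → Fin b} {p : ℕ → ℝ}

/-- **Porous sets are null sets for unpredictable digits.** -/
theorem porous_null (hb : 2 ≤ b) (h : Unp P X p) (hdiv : Div p) {E : Set ℝ} (hE : Porous E)
    (x r : ℝ) (hr : r ≠ 0) :
    ∀ᵐ ω ∂P, x + r * (Real.ofDigits fun i => X i ω) ∉ E := by
  classical
  obtain ⟨c, l₀, hc, hl₀, H⟩ := hE.affine x r hr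
  have hb0 : 0 < b := by omega
  have hb1 : (1 : ℝ) < b := by exact_mod_cast (by omega : 1 < b)
  have hinv : ((b : ℝ))⁻¹ < 1 := inv_lt_one_of_one_lt₀ hb1
  obtain ⟨M₀, hM₀⟩ := exists_pow_lt_of_lt_one (show 0 < c / 2 by positivity) hinv
  set M := M₀ + 1 with hM
  have hcM : 2 * ((b : ℝ) ^ M)⁻¹ ≤ c := by
    have h1 : ((b : ℝ) ^ M)⁻¹ ≤ ((b : ℝ)⁻¹) ^ M₀ := by
      rw [← inv_pow]
      exact pow_le_pow_of_le_one (by positivity) hinv.le (by omega)
    linarith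
  obtain ⟨n₀, hn₀⟩ := exists_pow_lt_of_lt_one hl₀ hinv
  have hv : ∀ (n : ℕ) (A : ℝ), ∃ v : ℕ → Fin b, n₀ ≤ n → ∀ d : ℕ → Fin b,
      (∑ i ∈ range n, Real.ofDigitsTerm d i = A) → (∀ i < M, d (n + i) = v i) →
      x + r * Real.ofDigits d ∉ E := by
    intro n A
    by_cases hn : n₀ ≤ n
    · have hl : ((b : ℝ) ^ n)⁻¹ ≤ l₀ := by
        rw [← inv_pow]
        exact (pow_le_pow_of_le_one (by positivity) hinv.le hn).trans hn₀.le
      obtain ⟨a', h1, h2, h3⟩ := H A (((b : ℝ) ^ n)⁻¹) (by positivity) hl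
      obtain ⟨v, hv⟩ := word_into hb n M hcM h1 h2
      exact ⟨v, fun _ d hA hd => h3 _ (hv d hA hd)⟩
    · exact ⟨fun _ => ⟨0, hb0⟩, fun h => absurd h hn⟩
  choose v hv using hv
  have hdep : ∀ n i, FDep X n (fun ω =>
      v n (∑ j ∈ range n, Real.ofDigitsTerm (fun k => X k ω) j) i) := by
    intro n i ω ω' hω
    have : ∑ j ∈ range n, Real.ofDigitsTerm (fun k => X k ω) j
        = ∑ j ∈ range n, Real.ofDigitsTerm (fun k => X k ω') j := by
      refine Finset.sum_congr rfl fun j hj => ?_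
      simp only [Real.ofDigitsTerm]
      rw [hω j (Finset.mem_range.1 hj)]
    simp only [this]
  have hfreq := h.frequently (M := M) (by omega) (hdiv _)
    (fun n i ω => v n (∑ j ∈ range n, Real.ofDigitsTerm (fun k => X k ω) j) i) hdep
  filter_upwards [hfreq] with ω hω
  obtain ⟨n, hn, hhit⟩ := hω n₀
  exact hv n _ hn (fun i => X i ω) rfl hhit

end Pool.Agent.Q83.DN
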