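import Pool.Agent.Q83.DN.C
import Pool.Agent.Helper150.Lattice

/-! # Products of linear forms: perturbing one form -/

set_option autoImplicit false

open MeasureTheory Filter Topology Finset Matrix

namespace Pool.Agent.Q83.DN

variable {d : ℕ}

/-- the row `i₀` is replaced by `g i₀ + t w` -/
noncomputable def G (g : Matrix (Fin d) (Fin d) ℝ) (i₀ : Fin d) (w : Fin d → ℝ) (t : ℝ) :
    Matrix (Fin d) (Fin d) ℝ := g.updateRow i₀ (g i₀ + t • w)

/-- the value of the forms at an integer point -/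
noncomputable def val (g : Matrix (Fin d) (Fin d) ℝ) (y : Fin d → ℤ) (i : Fin d) : ℝ :=
  g.mulVec (fun j => (y j : ℝ)) i

lemma cramer_dot (A : Matrix (Fin d) (Fin d) ℝ) (w y : Fin d → ℝ) :
    A.det * (w ⬝ᵥ y) = ∑ i, (A.updateRow i w).det * (A *ᵥ y) i := by
  have h := mulVec_cramer Aᵀ w
  have h1 : (Aᵀ *ᵥ cramer Aᵀ w) ⬝ᵥ y = A.det * (w ⬝ᵥ y) := by
    rw [h, det_transpose, smul_dotProduct, smul_eq_mul]
  rw [← h1, mulVec_transpose, ← dotProduct_mulVec]
  simp only [dotProduct, cramer_transpose_apply]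

lemma cof_G (g : Matrix (Fin d) (Fin d) ℝ) {i₀ i : Fin d} (hi : i ≠ i₀) (w : Fin d → ℝ) (t : ℝ) :
    ((G g i₀ w t).updateRow i w).det = (g.updateRow i w).det := by
  have e1 : (G g i₀ w t).updateRow i w = (g.updateRow i w).updateRow i₀ (g i₀ + t • w) := by
    rw [G, updateRow_comm _ hi.symm]
  rw [e1, det_updateRow_add, det_updateRow_smul]
  have e2 : (g.updateRow i w).updateRow i₀ (g i₀) = g.updateRow i w := by
    have : g i₀ = (g.updateRow i w) i₀ := by rw [updateRow_ne hi.symm]
    conv_lhs => rw [this]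
    rw [updateRow_eq_self]
  have e3 : ((g.updateRow i w).updateRow i₀ w).det = 0 := by
    apply det_zero_of_row_eq hi
    rw [updateRow_self, updateRow_ne hi, updateRow_self]
  rw [e2, e3]; ring

lemma cof_self (g : Matrix (Fin d) (Fin d) ℝ) {i₀ : Fin d} (w : Fin d → ℝ) (t : ℝ) :
    ((G g i₀ w t).updateRow i₀ w).det = (g.updateRow i₀ w).det := by
  rw [G, updateRow_idem]

lemma det_G (g : Matrix (Fin d) (Fin d) ℝ) (i₀ : Fin d) (w : Fin d → ℝ) (t : ℝ) :
    (G g i₀ w t).det = g.det + t * (g.updateRow i₀ w).det := by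
  rw [G, det_updateRow_add, det_updateRow_smul, updateRow_eq_self]

lemma val_G_ne (g : Matrix (Fin d) (Fin d) ℝ) {i₀ i : Fin d} (hi : i ≠ i₀) (w : Fin d → ℝ) (t : ℝ)
    (y : Fin d → ℤ) : val (G g i₀ w t) y i = val g y i := by
  change (g.updateRow i₀ (g i₀ + t • w)) i ⬝ᵥ _ = g i ⬝ᵥ _
  rw [updateRow_ne hi]

lemma val_G_self (g : Matrix (Fin d) (Fin d) ℝ) (i₀ : Fin d) (w : Fin d → ℝ) (t : ℝ)
    (y : Fin d → ℤ) : val (G g i₀ w t) y i₀ = val g y i₀ + t * (w ⬝ᵥ fun j => (y j : ℝ)) := by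
  change (g.updateRow i₀ (g i₀ + t • w)) i₀ ⬝ᵥ _ = g i₀ ⬝ᵥ _ + _
  rw [updateRow_self, add_dotProduct, smul_dotProduct, smul_eq_mul]

/-- The exceptional parameters, quantitatively. -/
def Exc (g : Matrix (Fin d) (Fin d) ℝ) (i₀ : Fin d) (w : Fin d → ℝ) (K η ε : ℝ) : Set ℝ :=
  {t | |t| ≤ K ∧ η ≤ |(G g i₀ w t).det| ∧ ∀ y : Fin d → ℤ, y ≠ 0 → ε ≤ |∏ i, val (G g i₀ w t) y i|}

/-- **Porosity.** -/
theorem exc_porous (hd : 3 ≤ d) (g : Matrix (Fin d) (Fin d) ℝ) (i₀ j₀ : Fin d) (hj₀ : j₀ ≠ i₀)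
    (w : Fin d → ℝ) (hcof : (g.updateRow j₀ w).det ≠ 0) (K η ε : ℝ) (hK : 0 < K) (hη : 0 < η)
    (hε : 0 < ε) : Porous (Exc g i₀ w K η ε) := by
  classical
  obtain ⟨k₀, hk₀⟩ : ∃ k₀ : Fin d, k₀ ∉ ({i₀, j₀} : Finset (Fin d)) := by
    by_contra hcon
    push Not at hcon
    have h1 : (Finset.univ : Finset (Fin d)) ⊆ {i₀, j₀} := fun k _ => hcon k
    have h2 := Finset.card_le_card h1
    have h3 : ({i₀, j₀} : Finset (Fin d)).card ≤ 2 := Finset.card_le_two
    rw [Finset.card_univ, Fintype.card_fin] at h2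
    omega
  have hki : k₀ ≠ i₀ := fun h => hk₀ (by simp [h])
  have hkj : k₀ ≠ j₀ := fun h => hk₀ (by simp [h])
  set cof : Fin d → ℝ := fun i => (g.updateRow i w).det with hcofdef
  set C0 : ℝ := |cof j₀| with hC0
  have hC0pos : 0 < C0 := abs_pos.2 hcof
  set R : ℝ := ∑ i, |cof i| with hR
  have hR0 : 0 ≤ R := Finset.sum_nonneg fun i _ => abs_nonneg _
  have hRi : ∀ i, |cof i| ≤ R := fun i =>
    Finset.single_le_sum (f := fun i => |cof i|) (fun i _ => abs_nonneg _) (Finset.mem_univ i)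
  set D : ℝ := |g.det| + (K + 1) * R + 1 with hD
  have hD1 : 1 ≤ D := by
    have : 0 ≤ |g.det| := abs_nonneg _
    have : 0 ≤ (K + 1) * R := by positivity
    linarith
  have hD0 : 0 < D := by linarith
  set κ : ℝ := ε / (4 * D) with hκ
  have hκ0 : 0 < κ := by positivity
  set C1 : ℝ := 2 * (C0 + R) / η with hC1
  have hC1pos : 0 < C1 := by positivity
  set c2 : ℝ := C0 * κ / (2 * D) with hc2
  have hc2pos : 0 < c2 := by positivity
  set Λ : ℝ := 4 / c2 with hΛ
  have hΛpos : 0 < Λ := by positivity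
  set ρ : ℝ := min 1 (ε / (2 * D)) with hρ
  have hρpos : 0 < ρ := by rw [hρ]; exact lt_min one_pos (by positivity)
  set c : ℝ := min (1 / 4) (ρ / (C1 * Λ)) with hc
  have hcpos : 0 < c := by rw [hc]; exact lt_min (by norm_num) (by positivity)
  have hc4 : c ≤ 1 / 4 := by rw [hc]; exact min_le_left _ _
  have hcρ : c * (C1 * Λ) ≤ ρ := by
    have : c ≤ ρ / (C1 * Λ) := by rw [hc]; exact min_le_right _ _
    rwa [le_div_iff₀ (by positivity)] at this
  clear_value c
  set T0 : ℝ := max D (2 * R / (C0 * κ)) with hT0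
  have hT0pos : 0 < T0 := by rw [hT0]; exact lt_of_lt_of_le hD0 (le_max_left _ _)
  set l₀ : ℝ := min 1 (min (η / (2 * (R + 1))) (Λ / T0)) with hl₀
  have hl₀pos : 0 < l₀ := by
    rw [hl₀]; exact lt_min one_pos (lt_min (by positivity) (by positivity))
  have hl₀1 : l₀ ≤ 1 := by rw [hl₀]; exact min_le_left _ _
  have hl₀2 : l₀ ≤ η / (2 * (R + 1)) := by
    rw [hl₀]; exact (min_le_right _ _).trans (min_le_left _ _)
  have hl₀3 : l₀ ≤ Λ / T0 := by rw [hl₀]; exact (min_le_right _ _).trans (min_le_right _ _)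
  have hρ1 : ρ ≤ 1 := by rw [hρ]; exact min_le_left _ _
  have hρ2 : ρ ≤ ε / (2 * D) := by rw [hρ]; exact min_le_right _ _
  have hT0D : D ≤ T0 := by rw [hT0]; exact le_max_left _ _
  have hT0R : 2 * R / (C0 * κ) ≤ T0 := by rw [hT0]; exact le_max_right _ _
  clear_value l₀ ρ T0 Λ c2 C1 κ D
  refine ⟨c, l₀, hcpos, hl₀pos, fun a l hl hll => ?_⟩
  have hl1 : l ≤ 1 := hll.trans hl₀1
  have hl2 : l ≤ η / (2 * (R + 1)) := hll.trans hl₀2
  have hl3 : l ≤ Λ / T0 := hll.trans hl₀3
  by_cases hmeet : ∃ t ∈ Set.Icc a (a + l), t ∈ Exc g i₀ w K η ε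
  swap
  · push Not at hmeet
    refine ⟨a, le_rfl, ?_, fun t ht => hmeet t ⟨ht.1, ?_⟩⟩
    · nlinarith
    · have := ht.2; nlinarith
  obtain ⟨t₁, ⟨ht₁a, ht₁b⟩, ht₁K, ht₁η, _⟩ := hmeet
  set tc : ℝ := a + l / 2 with htc
  have htc1 : |tc - t₁| ≤ l := by rw [abs_le]; constructor <;> linarith
  have htcK : |tc| ≤ K + 1 := by
    have : tc = t₁ + (tc - t₁) := by ring
    rw [this]; exact (abs_add_le _ _).trans (by linarith)
  have hdetdiff : |(G g i₀ w tc).det - (G g i₀ w t₁).det| ≤ η / 2 := by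
    rw [det_G, det_G]
    have : g.det + tc * (g.updateRow i₀ w).det - (g.det + t₁ * (g.updateRow i₀ w).det)
        = (tc - t₁) * cof i₀ := by simp only [hcofdef]; ring
    rw [this, abs_mul]
    calc |tc - t₁| * |cof i₀| ≤ l * (R + 1) :=
          mul_le_mul htc1 (by linarith [hRi i₀]) (abs_nonneg _) hl.le
      _ ≤ η / (2 * (R + 1)) * (R + 1) := mul_le_mul_of_nonneg_right hl2 (by positivity)
      _ = η / 2 := by field_simp
  have hdetlow : η / 2 ≤ |(G g i₀ w tc).det| := by
    have h1 := abs_sub_abs_le_abs_sub (G g i₀ w t₁).det (G g i₀ w tc).det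
    rw [abs_sub_comm] at hdetdiff
    linarith
  have hdetne : (G g i₀ w tc).det ≠ 0 := by
    intro h0; rw [h0, abs_zero] at hdetlow; linarith
  have hdetup : |(G g i₀ w tc).det| < D := by
    rw [det_G]
    calc |g.det + tc * (g.updateRow i₀ w).det| ≤ |g.det| + |tc| * |cof i₀| := by
          refine (abs_add_le _ _).trans ?_
          rw [abs_mul]
      _ ≤ |g.det| + (K + 1) * R := by
          have := mul_le_mul htcK (hRi i₀) (abs_nonneg _) (by positivity : (0:ℝ) ≤ K + 1)
          linarith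
      _ < D := by rw [hD]; linarith
  set T : ℝ := Λ / l with hT
  have hTpos : 0 < T := by positivity
  have hTT0 : T0 ≤ T := by
    rw [hT, le_div_iff₀ hl]
    rw [le_div_iff₀ hT0pos] at hl3
    linarith
  have hTD : D ≤ T := hT0D.trans hTT0
  have hT1 : 1 ≤ T := hD1.trans hTD
  have hTR : R ≤ C0 * κ * T / 2 := by
    have h1 : 2 * R / (C0 * κ) ≤ T := hT0R.trans hTT0
    rw [div_le_iff₀ (by positivity)] at h1
    linarith
  have hTl : T * l = Λ := by rw [hT]; field_simp
  -- Minkowski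
  set cc : Fin d → ℝ := fun k => (if k = j₀ then T else 1) * (if k = k₀ then D / T else 1) with hcc
  have hccpos : ∀ k, 0 < cc k := by
    intro k; simp only [hcc]
    refine mul_pos ?_ ?_ <;> split_ifs <;> positivity
  have hccprod : ∏ k, cc k = D := by
    simp only [hcc]
    rw [Finset.prod_mul_distrib, Finset.prod_ite_eq' Finset.univ j₀ (fun _ => T),
      Finset.prod_ite_eq' Finset.univ k₀ (fun _ => D / T)]
    simp only [Finset.mem_univ, if_true]
    field_simp
  obtain ⟨y, hy0, hy⟩ := Pool.Agent.Helper150.Lattice.linear_forms (G g i₀ w tc) hdetne cc hccpos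
    (by rw [hccprod]; exact hdetup)
  have hy' : ∀ k, |val (G g i₀ w tc) y k| < cc k := hy
  set W : ℝ := w ⬝ᵥ fun j => (y j : ℝ) with hW
  set S : ℝ := val g y j₀ with hS
  set u : ℝ := val (G g i₀ w tc) y i₀ with hu
  have hu1 : |u| < 1 := by
    have := hy' i₀
    simp only [hcc] at this
    rw [if_neg hj₀.symm, if_neg hki.symm, one_mul] at this
    exact this
  have hST : |S| < T := by
    have := hy' j₀
    simp only [hcc] at this
    rw [if_true, if_neg hkj.symm, mul_one, val_G_ne g hj₀] at this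
    exact this
  have hk1 : |val g y k₀| < D / T := by
    have := hy' k₀
    simp only [hcc] at this
    rw [if_neg hkj, if_true, one_mul, val_G_ne g hki] at this
    exact this
  have hDT : D / T ≤ 1 := by rw [div_le_one hTpos]; exact hTD
  have hother : ∀ k, k ≠ j₀ → |val (G g i₀ w tc) y k| ≤ 1 := by
    intro k hk
    refine (hy' k).le.trans ?_
    simp only [hcc]
    rw [if_neg hk, one_mul]
    split_ifs
    · exact hDT
    · exact le_rfl
  -- Cramer
  have hcr : (G g i₀ w tc).det * W = ∑ k, cof k * val (G g i₀ w tc) y k := by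
    rw [hW, cramer_dot]
    refine Finset.sum_congr rfl fun k _ => ?_
    congr 1
    by_cases hk : k = i₀
    · subst hk; exact cof_self g w tc
    · exact cof_G g hk w tc
  have hrest : |(G g i₀ w tc).det * W - cof j₀ * S| ≤ R := by
    rw [hcr, ← Finset.add_sum_erase _ _ (Finset.mem_univ j₀), val_G_ne g hj₀]
    have : cof j₀ * val g y j₀ + ∑ k ∈ Finset.univ.erase j₀, cof k * val (G g i₀ w tc) y k
        - cof j₀ * S = ∑ k ∈ Finset.univ.erase j₀, cof k * val (G g i₀ w tc) y k := by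
      rw [hS]; ring
    rw [this]
    refine (Finset.abs_sum_le_sum_abs _ _).trans ?_
    calc ∑ k ∈ Finset.univ.erase j₀, |cof k * val (G g i₀ w tc) y k|
        ≤ ∑ k ∈ Finset.univ.erase j₀, |cof k| := by
          refine Finset.sum_le_sum fun k hk => ?_
          rw [abs_mul]
          exact mul_le_of_le_one_right (abs_nonneg _) (hother k (Finset.ne_of_mem_erase hk))
      _ ≤ R := Finset.sum_le_sum_of_subset_of_nonneg (Finset.erase_subset _ _)
          fun k _ _ => abs_nonneg _
  have hWup : |W| ≤ C1 * T := by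
    have h1 : η / 2 * |W| ≤ |(G g i₀ w tc).det * W| := by
      rw [abs_mul]; exact mul_le_mul_of_nonneg_right hdetlow (abs_nonneg _)
    have h2 : |(G g i₀ w tc).det * W| ≤ C0 * T + R := by
      have h3 := abs_sub_abs_le_abs_sub ((G g i₀ w tc).det * W) (cof j₀ * S)
      have h4 : |cof j₀ * S| ≤ C0 * T := by
        rw [abs_mul]; exact mul_le_mul_of_nonneg_left hST.le (abs_nonneg _)
      linarith
    have h3 : R ≤ R * T := le_mul_of_one_le_right hR0 hT1
    have h4 : η / 2 * |W| ≤ (C0 + R) * T := by linarith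
    rw [hC1]
    have h5 : |W| ≤ (C0 + R) * T / (η / 2) := by
      rw [le_div_iff₀ (by positivity)]; linarith
    calc |W| ≤ (C0 + R) * T / (η / 2) := h5
      _ = 2 * (C0 + R) / η * T := by field_simp
  -- the values at t
  have hvalt : ∀ t : ℝ, val (G g i₀ w t) y i₀ = u + (t - tc) * W := by
    intro t; rw [hu, val_G_self, val_G_self, hW]; ring
  have hprod : ∀ t s β : ℝ, 0 ≤ s → 0 ≤ β → |S| ≤ s → |u + (t - tc) * W| ≤ β →
      |∏ k, val (G g i₀ w t) y k| ≤ s * (D / T) * β := by
    intro t s β hs hβ hSs hub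
    rw [Finset.abs_prod]
    have h1 : ∀ k ∈ (Finset.univ : Finset (Fin d)), |val (G g i₀ w t) y k|
        ≤ (if k = j₀ then s else 1) * (if k = k₀ then D / T else 1) * (if k = i₀ then β else 1) := by
      intro k _
      by_cases hkj' : k = j₀
      · subst hkj'
        rw [if_pos rfl, if_neg hkj.symm, if_neg hj₀, mul_one, mul_one, val_G_ne g hj₀]
        exact hSs
      · rw [if_neg hkj', one_mul]
        by_cases hkk : k = k₀
        · subst hkk
          rw [if_pos rfl, if_neg hki, mul_one, val_G_ne g hki]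
          exact hk1.le
        · rw [if_neg hkk, one_mul]
          by_cases hki' : k = i₀
          · subst hki'
            rw [if_pos rfl, hvalt]
            exact hub
          · rw [if_neg hki']
            have := hother k hkj'
            rw [val_G_ne g hki'] at this ⊢
            exact this
    refine (Finset.prod_le_prod (fun k _ => abs_nonneg _) h1).trans (le_of_eq ?_)
    rw [Finset.prod_mul_distrib, Finset.prod_mul_distrib,
      Finset.prod_ite_eq' Finset.univ j₀ (fun _ => s),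
      Finset.prod_ite_eq' Finset.univ k₀ (fun _ => D / T),
      Finset.prod_ite_eq' Finset.univ i₀ (fun _ => β)]
    simp
  -- a target
  have htarget : ∃ τ : ℝ, |τ - tc| ≤ l / 4 ∧ ∀ t : ℝ, |t - τ| ≤ c * l →
      |∏ k, val (G g i₀ w t) y k| < ε := by
    have hmove : ∀ τ t : ℝ, |t - τ| ≤ c * l → |(t - τ) * W| ≤ ρ := by
      intro τ t ht
      rw [abs_mul]
      calc |t - τ| * |W| ≤ (c * l) * (C1 * T) :=
            mul_le_mul ht hWup (abs_nonneg _) (by positivity)
        _ = c * (C1 * (T * l)) := by ring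
        _ = c * (C1 * Λ) := by rw [hTl]
        _ ≤ ρ := hcρ
    rcases lt_or_ge |S| (κ * T) with hSκ | hSκ
    · refine ⟨tc, by rw [sub_self, abs_zero]; positivity, fun t ht => ?_⟩
      have h1 := hmove tc t ht
      have h2 : |u + (t - tc) * W| ≤ 2 := by
        refine (abs_add_le _ _).trans ?_
        linarith
      have h3 := hprod t (κ * T) 2 (by positivity) (by norm_num) hSκ.le h2
      refine lt_of_le_of_lt h3 ?_
      have : κ * T * (D / T) * 2 = ε / 2 := by rw [hκ]; field_simp; ring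
      rw [this]; linarith
    · have hWlow : c2 * T ≤ |W| := by
        have h1 : |(G g i₀ w tc).det * W| ≤ D * |W| := by
          rw [abs_mul]; exact mul_le_mul_of_nonneg_right hdetup.le (abs_nonneg _)
        have h2 : C0 * (κ * T) ≤ |cof j₀ * S| := by
          rw [abs_mul]; exact mul_le_mul_of_nonneg_left hSκ (abs_nonneg _)
        have h3 := abs_sub_abs_le_abs_sub (cof j₀ * S) ((G g i₀ w tc).det * W)
        rw [abs_sub_comm] at h3
        have h4 : C0 * κ * T / 2 ≤ D * |W| := by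
          have : C0 * (κ * T) = C0 * κ * T := by ring
          linarith
        have h5 : c2 * T = (C0 * κ * T / 2) / D := by rw [hc2]; field_simp
        rw [h5, div_le_iff₀ hD0]; linarith
      have hW0 : 0 < |W| := lt_of_lt_of_le (by positivity) hWlow
      have hWne : W ≠ 0 := abs_pos.1 hW0
      refine ⟨tc - u / W, ?_, fun t ht => ?_⟩
      · have : tc - u / W - tc = -(u / W) := by ring
        rw [this, abs_neg, abs_div, div_le_iff₀ hW0]
        have h6 : l / 4 * (c2 * T) = 1 := by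
          have : l / 4 * (c2 * T) = (T * l) * c2 / 4 := by ring
          rw [this, hTl, hΛ]; field_simp
        have h7 : l / 4 * (c2 * T) ≤ l / 4 * |W| := mul_le_mul_of_nonneg_left hWlow (by positivity)
        linarith
      · have h1 := hmove (tc - u / W) t ht
        have h2 : u + (t - tc) * W = (t - (tc - u / W)) * W := by field_simp; ring
        have h3 := hprod t T ρ hTpos.le hρpos.le hST.le (by rw [h2]; exact h1)
        refine lt_of_le_of_lt h3 ?_
        have h4 : T * (D / T) * ρ ≤ D * (ε / (2 * D)) := by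
          have : T * (D / T) = D := by field_simp
          rw [this]; exact mul_le_mul_of_nonneg_left hρ2 hD0.le
        have h5 : D * (ε / (2 * D)) = ε / 2 := by field_simp
        linarith
  obtain ⟨τ, hτ, hτF⟩ := htarget
  rw [abs_le] at hτ
  have hcl : c * l ≤ l / 4 := by nlinarith
  refine ⟨τ - c * l / 2, by linarith [hτ.1], by linarith [hτ.2], fun t ht htE => ?_⟩
  have h1 : |t - τ| ≤ c * l := by
    have h0 : 0 < c * l := by positivity
    rw [abs_le]; constructor <;> linarith [ht.1, ht.2]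
  have h2 := hτF t h1
  have h3 := htE.2.2 y hy0
  linarith

end Pool.Agent.Q83.DN
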