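import Pool.Agent.Q83.DN.C

/-! # Fair digits at the places of a thick set -/

set_option autoImplicit false

open MeasureTheory Filter Topology Finset
open scoped ENNReal

namespace Pool.Agent.Q83.DN

/-- `T` contains arbitrarily long intervals. -/
def Thick (T : Set ℕ) : Prop := ∀ M : ℕ, ∃ n, ∀ i < M, n + i ∈ T

/-- a fair digit in base `b` -/
noncomputable def fair (b : ℕ) : Measure (Fin b) := (b : ℝ≥0∞)⁻¹ • Measure.count

open Classical in
/-- independent digits: fair at the places in `T`, equal to the prescribed digits `d` elsewhere -/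
noncomputable def noise {b : ℕ} (d : ℕ → Fin b) (T : Set ℕ) : Measure (ℕ → Fin b) :=
  Measure.infinitePi fun i => if i ∈ T then fair b else Measure.dirac (d i)

lemma fair_singleton {b : ℕ} (a : Fin b) : fair b {a} = (b : ℝ≥0∞)⁻¹ := by
  simp [fair]

lemma fair_prob {b : ℕ} (hb : 2 ≤ b) : IsProbabilityMeasure (fair b) := by
  constructor
  have h1 : (Measure.count (Set.univ : Set (Fin b))) = (b : ℝ≥0∞) := by
    rw [Measure.count_univ]; simp
  rw [fair, Measure.smul_apply, h1, smul_eq_mul]
  exact ENNReal.inv_mul_cancel (by exact_mod_cast (by omega : b ≠ 0)) (ENNReal.natCast_ne_top b)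

variable {b : ℕ} (hb : 2 ≤ b) (d : ℕ → Fin b) (T : Set ℕ)

open Classical in
lemma marg_prob (hb : 2 ≤ b) (i : ℕ) :
    IsProbabilityMeasure (if i ∈ T then fair b else Measure.dirac (d i)) := by
  split_ifs
  · exact fair_prob hb
  · infer_instance

open Classical in
/-- the probabilities of the digits of `noise` -/
noncomputable def pT (b : ℕ) (T : Set ℕ) (i : ℕ) : ℝ := if i ∈ T then (b : ℝ)⁻¹ else 0

/-- the digits of `noise` are unpredictable, with `p n = 1 / b` for `n ∈ T` and `0` otherwise -/
lemma noise_unp (hb : 2 ≤ b) : IsProbabilityMeasure (noise d T) ∧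
    Unp (noise d T) (fun i ω => ω i) (pT b T) := by
  classical
  have hp : ∀ i, IsProbabilityMeasure (if i ∈ T then fair b else Measure.dirac (d i)) :=
    marg_prob d T hb
  have hprob : IsProbabilityMeasure (noise d T) := by
    unfold noise; infer_instance
  refine ⟨hprob, ⟨fun i => measurable_pi_apply i, fun i => ?_, fun n w => ?_⟩⟩
  · unfold pT; split_ifs <;> positivity
  · have hcyl : ∀ m : ℕ, (noise d T) {ω | ∀ i < m, ω i = w i}
        = ∏ i ∈ range m, (if i ∈ T then fair b else Measure.dirac (d i)) {w i} := by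
      intro m
      have : {ω : ℕ → Fin b | ∀ i < m, ω i = w i} = Set.pi (range m : Finset ℕ) fun i => {w i} := by
        ext ω; simp
      rw [this, noise, Measure.infinitePi_pi _ fun i _ => measurableSet_singleton _]
    have e1 : {ω : ℕ → Fin b | ∀ i ≤ n, ω i = w i} = {ω | ∀ i < n + 1, ω i = w i} := by
      ext ω; simp
    rw [e1, Measure.real, Measure.real, hcyl, hcyl, Finset.prod_range_succ, ENNReal.toReal_mul,
      mul_comm]
    refine mul_le_mul_of_nonneg_left ?_ ENNReal.toReal_nonneg
    unfold pT
    split_ifs with hn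
    · rw [fair_singleton]; simp
    · exact ENNReal.toReal_nonneg

lemma noise_off (hb : 2 ≤ b) : ∀ᵐ ω ∂(noise d T), ∀ i ∉ T, ω i = d i := by
  classical
  have hp : ∀ i, IsProbabilityMeasure (if i ∈ T then fair b else Measure.dirac (d i)) :=
    marg_prob d T hb
  rw [ae_all_iff]
  intro i
  by_cases hi : i ∈ T
  · exact Eventually.of_forall fun ω h => absurd hi h
  · have h1 : (noise d T) {ω : ℕ → Fin b | ω i = d i}ᶜ = 0 := by
      have : {ω : ℕ → Fin b | ω i = d i}ᶜ = Set.pi ({i} : Finset ℕ) fun _ => {d i}ᶜ := by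
        ext ω; simp
      rw [this, noise, Measure.infinitePi_pi _ fun j _ => (measurableSet_singleton _).compl]
      simp [hi]
    rw [ae_iff]
    refine measure_mono_null ?_ h1
    intro ω hω
    simp only [Set.mem_ofPred_eq, Classical.not_imp] at hω
    exact hω.2

lemma thick_divergent (hb : 2 ≤ b) (hT : Thick T) : Div (pT b T) := by
  classical
  intro M hsum
  have hbpos : (0 : ℝ) < (b : ℝ)⁻¹ := by positivity
  have h0 := hsum.tendsto_atTop_zero
  have h1 := (h0.eventually (gt_mem_nhds (show (0 : ℝ) < (b : ℝ)⁻¹ ^ M by positivity)))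
  obtain ⟨N, hN⟩ := eventually_atTop.1 h1
  obtain ⟨n, hn⟩ := hT (N + M)
  have h2 := hN (n + N) (by omega)
  have h3 : ∏ i ∈ range M, pT b T (n + N + i) = (b : ℝ)⁻¹ ^ M := by
    unfold pT
    rw [Finset.prod_congr rfl (fun i hi => if_pos (by
      have := hn (N + i) (by have := Finset.mem_range.1 hi; omega)
      rwa [← add_assoc] at this)), Finset.prod_const, Finset.card_range]
  rw [h3] at h2
  exact lt_irrefl _ h2

end Pool.Agent.Q83.DN
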