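import Pool.Agent.Q83.DN.D
import Pool.Agent.Q83.DN.N

/-! # Products of linear forms: the exceptional parameters -/

set_option autoImplicit false

open MeasureTheory Filter Topology Finset Matrix

namespace Pool.Agent.Q83.DN

variable {d : ℕ}

/-- the product has no small values at nonzero integer points -/
def BddBelow' (g : Matrix (Fin d) (Fin d) ℝ) : Prop :=
  ∃ ε : ℝ, 0 < ε ∧ ∀ y : Fin d → ℤ, y ≠ 0 → ε ≤ |∏ i, val g y i|

lemma exists_cof (g : Matrix (Fin d) (Fin d) ℝ) (i₀ : Fin d) (w : Fin d → ℝ)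
    (hli : LinearIndependent ℝ ![g i₀, w]) {t : ℝ} (ht : (G g i₀ w t).det ≠ 0) :
    ∃ j₀ : Fin d, j₀ ≠ i₀ ∧ (g.updateRow j₀ w).det ≠ 0 := by
  classical
  by_contra hcon
  push Not at hcon
  have h1 : ∀ y : Fin d → ℝ, (G g i₀ w t).det * (w ⬝ᵥ y)
      = (g.updateRow i₀ w).det * ((g i₀ + t • w) ⬝ᵥ y) := by
    intro y
    rw [cramer_dot, ← Finset.add_sum_erase _ _ (Finset.mem_univ i₀), cof_self]
    have h2 : ∑ k ∈ Finset.univ.erase i₀, ((G g i₀ w t).updateRow k w).det * (G g i₀ w t *ᵥ y) k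
        = 0 := by
      refine Finset.sum_eq_zero fun k hk => ?_
      rw [cof_G g (Finset.ne_of_mem_erase hk), hcon k (Finset.ne_of_mem_erase hk), zero_mul]
    rw [h2, add_zero]
    congr 1
    change (g.updateRow i₀ (g i₀ + t • w)) i₀ ⬝ᵥ y = _
    rw [updateRow_self]
  set C := (g.updateRow i₀ w).det with hC
  set D := (G g i₀ w t).det with hD
  have h3 : (-C) • g i₀ + (D - C * t) • w = 0 := by
    funext k
    have h4 := h1 (Pi.single k 1)
    rw [dotProduct_single, dotProduct_single] at h4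
    simp only [Pi.add_apply, Pi.smul_apply, smul_eq_mul, Pi.zero_apply] at h4 ⊢
    linarith
  have h5 := LinearIndependent.pair_iff.1 hli (-C) (D - C * t) h3
  have h6 : C = 0 := by linarith [h5.1]
  rw [h6] at h5
  exact ht (by linarith [h5.2])

/-- **The exceptional parameters form a countable union of porous sets.** -/
theorem bad_porous (hd : 3 ≤ d) (g : Matrix (Fin d) (Fin d) ℝ) (i₀ : Fin d) (w : Fin d → ℝ)
    (hli : LinearIndependent ℝ ![g i₀, w]) :
    ∃ E : ℕ → Set ℝ, (∀ k, Porous (E k)) ∧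
      {t | (G g i₀ w t).det ≠ 0 ∧ BddBelow' (G g i₀ w t)} ⊆ ⋃ k, E k := by
  by_cases hex : ∃ t, (G g i₀ w t).det ≠ 0
  · obtain ⟨t₀, ht₀⟩ := hex
    obtain ⟨j₀, hj₀, hcof⟩ := exists_cof g i₀ w hli ht₀
    refine ⟨fun k => Exc g i₀ w (k + 1) (1 / (k + 1)) (1 / (k + 1)), fun k =>
      exc_porous hd g i₀ j₀ hj₀ w hcof _ _ _ (by positivity) (by positivity) (by positivity), ?_⟩
    rintro t ⟨htd, ε, hε, hF⟩
    obtain ⟨k₁, hk₁⟩ := exists_nat_gt |t|
    obtain ⟨k₂, hk₂⟩ := exists_nat_one_div_lt (abs_pos.2 htd)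
    obtain ⟨k₃, hk₃⟩ := exists_nat_one_div_lt hε
    refine Set.mem_iUnion.2 ⟨k₁ + k₂ + k₃, ?_, ?_, fun y hy => ?_⟩
    · push_cast
      have : (0 : ℝ) ≤ (k₂ : ℝ) + k₃ := by positivity
      linarith
    · refine le_trans ?_ hk₂.le
      apply one_div_le_one_div_of_le (by positivity)
      push_cast
      have : (0 : ℝ) ≤ (k₁ : ℝ) + k₃ := by positivity
      linarith
    · refine le_trans ?_ (hF y hy)
      refine le_trans ?_ hk₃.le
      apply one_div_le_one_div_of_le (by positivity)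
      push_cast
      have : (0 : ℝ) ≤ (k₁ : ℝ) + k₂ := by positivity
      linarith
  · push Not at hex
    refine ⟨fun _ => ∅, fun _ => ⟨1, 1, one_pos, one_pos, fun a l _ _ =>
      ⟨a, le_rfl, by linarith, fun t _ => by simp⟩⟩, ?_⟩
    rintro t ⟨htd, _⟩
    exact absurd (hex t) htd

lemma porous_singleton (t₀ : ℝ) : Porous {t₀} := by
  refine ⟨1 / 4, 1, by norm_num, one_pos, fun a l hl _ => ?_⟩
  rcases lt_or_ge (a + l / 2) t₀ with h | h
  · refine ⟨a, le_rfl, by linarith, ?_⟩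
    rintro t ⟨_, ht⟩ hte
    rw [Set.mem_singleton_iff] at hte
    subst hte; linarith
  · refine ⟨a + 3 * l / 4, by linarith, by linarith, ?_⟩
    rintro t ⟨ht, _⟩ hte
    rw [Set.mem_singleton_iff] at hte
    subst hte; linarith

/-- **Noise in one form.** -/
theorem noisy_forms {b : ℕ} {Ω : Type*} [MeasurableSpace Ω] {P : Measure Ω}
    [IsProbabilityMeasure P] {X : ℕ → Ω → Fin b} {p : ℕ → ℝ} (hb : 2 ≤ b) (h : Unp P X p)
    (hdiv : Div p) (hd : 3 ≤ d) (g : Matrix (Fin d) (Fin d) ℝ) (hg : g.det ≠ 0) (i₀ : Fin d)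
    (w : Fin d → ℝ) (hli : LinearIndependent ℝ ![g i₀, w]) (x r : ℝ) (hr : r ≠ 0) :
    ∀ᵐ ω ∂P, (G g i₀ w (x + r * Real.ofDigits fun i => X i ω)).det ≠ 0 ∧
      ∀ ε : ℝ, 0 < ε → ∃ y : Fin d → ℤ, y ≠ 0 ∧
        |∏ i, val (G g i₀ w (x + r * Real.ofDigits fun i => X i ω)) y i| < ε := by
  obtain ⟨E, hE, hsub⟩ := bad_porous hd g i₀ w hli
  have h1 : ∀ᵐ ω ∂P, ∀ k, x + r * (Real.ofDigits fun i => X i ω) ∉ E k := by
    rw [ae_all_iff]
    exact fun k => porous_null hb h hdiv (hE k) x r hr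
  have h2 : ∀ᵐ ω ∂P, x + r * (Real.ofDigits fun i => X i ω)
      ∉ ({-(g.det) / (g.updateRow i₀ w).det} : Set ℝ) :=
    porous_null hb h hdiv (porous_singleton _) x r hr
  filter_upwards [h1, h2] with ω h1 h2
  set t := x + r * (Real.ofDigits fun i => X i ω) with ht
  have hdet : (G g i₀ w t).det ≠ 0 := by
    intro h0
    rw [det_G] at h0
    have hne : (g.updateRow i₀ w).det ≠ 0 := by
      intro h3
      rw [h3, mul_zero, add_zero] at h0
      exact hg h0
    apply h2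
    rw [Set.mem_singleton_iff, eq_div_iff hne]
    linarith
  refine ⟨hdet, fun ε hε => ?_⟩
  by_contra hcon
  push Not at hcon
  have : t ∈ ⋃ k, E k := hsub ⟨hdet, ε, hε, hcon⟩
  obtain ⟨k, hk⟩ := Set.mem_iUnion.1 this
  exact h1 k hk

end Pool.Agent.Q83.DN
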